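import Pool.Agent.Helper51.UD.ManyK

/-!
# Sets containing a positive proportion of the tuples of rough numbers
-/

set_option autoImplicit false

open Finset

namespace Pool.Agent.Helper51.UD.HP

open Pool.Agent.Helper51.UD

/-- `S` contains, for arbitrarily large `x`, a positive proportion of the `n ∈ (x, 3x]` for which all
the `n + v i` are free of prime factors `≤ x ^ δ` -/
def POS (S : Set ℕ) : Prop := ∃ (κ : ℕ) (v : Fin κ → ℤ) (δ ε : ℝ) (c : ℕ), Function.Injective v ∧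
  0 < δ ∧ 0 < ε ∧ ∀ n₀ : ℕ, ∃ x : ℝ, (n₀ : ℝ) ≤ x ∧ ∃ A : Finset ℕ,
    (∀ n ∈ A, n ∈ S ∧ x < n ∧ (n : ℝ) ≤ 3 * x + c ∧
      ∀ i, ∀ p : ℕ, p.Prime → (p : ℤ) ∣ n + v i → x ^ δ < p) ∧
    ε * (x / Real.log x ^ κ) ≤ A.card

theorem pos_mono {S S' : Set ℕ} (n₁ : ℕ) (hS : ∀ n ∈ S, n₁ ≤ n → n ∈ S') (h : POS S) : POS S' := by
  obtain ⟨κ, v, δ, ε, c, hv, hδ, hε, h⟩ := h
  refine ⟨κ, v, δ, ε, c, hv, hδ, hε, fun n₀ => ?_⟩
  obtain ⟨x, hx, A, hA, hc⟩ := h (max n₀ n₁)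
  have h1 : (n₀ : ℝ) ≤ x := le_trans (by exact_mod_cast le_max_left _ _) hx
  have h2 : (n₁ : ℝ) ≤ x := le_trans (by exact_mod_cast le_max_right _ _) hx
  refine ⟨x, h1, A, fun n hn => ?_, hc⟩
  obtain ⟨h3, h4, h5, h6⟩ := hA n hn
  refine ⟨hS n h3 ?_, h4, h5, h6⟩
  have : (n₁ : ℝ) < n := by linarith
  exact_mod_cast this.le

theorem pos_shift {S : Set ℕ} (T : ℕ) (h : POS {n | n + T ∈ S}) : POS S := by
  classical
  obtain ⟨κ, v, δ, ε, c, hv, hδ, hε, h⟩ := h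
  refine ⟨κ, fun i => v i - T, δ, ε, c + T, fun i j hij => hv (by simpa using hij), hδ, hε,
    fun n₀ => ?_⟩
  obtain ⟨x, hx, A, hA, hc⟩ := h n₀
  refine ⟨x, hx, A.image (fun n => n + T), fun n hn => ?_, ?_⟩
  · obtain ⟨m, hm, rfl⟩ := mem_image.1 hn
    obtain ⟨h3, h4, h5, h6⟩ := hA m hm
    refine ⟨h3, ?_, ?_, fun i p hp hd => h6 i p hp ?_⟩
    · push_cast
      have : (0 : ℝ) ≤ T := Nat.cast_nonneg _
      linarith
    · push_cast
      linarith
    · have e : ((m + T : ℕ) : ℤ) + (v i - T) = m + v i := by push_cast; ring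
      rw [e] at hd
      exact hd
  · rw [card_image_of_injective _ (fun a b hab => by simpa using hab)]
    exact hc

/-- `S` contains many homothetic copies of all small sets, uniformly -/
def HOM (S : Set ℕ) : Prop := ∃ 𝒳 : Set ℕ, 𝒳.Infinite ∧ ∀ (k : ℕ) (ε : ℝ), 0 < ε → ε < 1 →
  ∃ C : ℕ, ∀ X ∈ 𝒳, C ≤ X → ∀ H D : ℕ, 1 ≤ H → Real.log X ^ C ≤ D → (H : ℝ) ^ ε ≤ D →
    (D : ℝ) * H ≤ (X : ℝ) ^ (1 - ε) → ∀ T : Finset ℕ, T.card ≤ k → (∀ t ∈ T, t ≤ H) →
      (D : ℝ) ^ (1 - ε) ≤ ({d : ℕ | d ∈ Set.Icc 1 D ∧ (X : ℝ) / (D : ℝ) ^ ε ≤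
        ({n : ℕ | n ∈ Set.Icc 1 X ∧ ∀ t ∈ T, n + d * t ∈ S}.ncard : ℝ)}.ncard : ℝ)

open Pool.Agent.Y880.RS (log_ev)

theorem hom_of_pos {S : Set ℕ} (h : POS S) : HOM S := by
  classical
  obtain ⟨κ, v, δ, ε₁, c, hv, hδ, hε₁, h⟩ := h
  obtain ⟨T₀, hT₀⟩ : ∃ T₀ : ℕ, ∀ i, -(T₀ : ℤ) ≤ v i := by
    refine ⟨∑ i, (v i).natAbs, fun i => ?_⟩
    have h1 := single_le_sum (f := fun i => (v i).natAbs) (fun _ _ => Nat.zero_le _) (mem_univ i)
    have h2 : (v i).natAbs ≤ ∑ i, (v i).natAbs := h1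
    omega
  obtain ⟨w, hw⟩ : ∃ w : Fin κ → ℕ, ∀ i, (w i : ℤ) = v i + T₀ :=
    ⟨fun i => (v i + T₀).toNat, fun i => Int.toNat_of_nonneg (by have := hT₀ i; linarith)⟩
  have hwi : Function.Injective w := by
    intro i j hij
    apply hv
    have h1 := hw i
    have h2 := hw j
    rw [hij] at h1
    linarith
  -- the good `X`
  have key : ∀ n₀ : ℕ, ∃ X : ℕ, n₀ ≤ X ∧ ∃ P ⊆ Icc 1 X, (∀ n ∈ P, n + T₀ ∈ S) ∧
      (∀ n ∈ P, n + T₀ ≤ X) ∧
      (∀ n ∈ P, ∀ i, ∀ q : ℕ, q.Prime → q ∣ n + w i → (X : ℝ) ^ (δ / 2) < q) ∧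
      ε₁ / 4 * (X / Real.log X ^ κ) ≤ P.card := by
    intro n₀
    obtain ⟨x, hx, A, hA, hc⟩ := h (n₀ + T₀ + c + 5)
    push_cast at hx
    have h0 : (0 : ℝ) ≤ n₀ := Nat.cast_nonneg _
    have h1 : (0 : ℝ) ≤ T₀ := Nat.cast_nonneg _
    have h2 : (0 : ℝ) ≤ c := Nat.cast_nonneg _
    obtain ⟨X, hX⟩ : ∃ X, X = ⌊4 * x⌋₊ := ⟨_, rfl⟩
    have hX1 : (X : ℝ) ≤ 4 * x := by rw [hX]; exact Nat.floor_le (by linarith)
    have hX2 : 4 * x < X + 1 := by rw [hX]; exact Nat.lt_floor_add_one _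
    have hX3 : x ≤ X := by linarith
    have hX0 : (0 : ℝ) < X := by linarith
    have hAT : ∀ n ∈ A, T₀ < n := by
      intro n hn
      have h3 := (hA n hn).2.1
      have h4 : (T₀ : ℝ) < n := by linarith
      exact_mod_cast h4
    have hAX : ∀ n ∈ A, n ≤ X := by
      intro n hn
      have h3 := (hA n hn).2.2.1
      have h4 : (n : ℝ) < X + 1 := by linarith
      have h5 : n < X + 1 := by exact_mod_cast h4
      omega
    refine ⟨X, ?_, A.image (fun n => n - T₀), ?_, ?_, ?_, ?_, ?_⟩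
    · have : (n₀ : ℝ) ≤ X := by linarith
      exact_mod_cast this
    · intro n hn
      obtain ⟨m, hm, rfl⟩ := mem_image.1 hn
      have h3 := hAT m hm
      have h4 := hAX m hm
      rw [mem_Icc]
      omega
    · intro n hn
      obtain ⟨m, hm, rfl⟩ := mem_image.1 hn
      have h3 := hAT m hm
      have e : m - T₀ + T₀ = m := by omega
      rw [e]
      exact (hA m hm).1
    · intro n hn
      obtain ⟨m, hm, rfl⟩ := mem_image.1 hn
      have h3 := hAT m hm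
      have h4 := hAX m hm
      omega
    · intro n hn i q hq hqd
      obtain ⟨m, hm, rfl⟩ := mem_image.1 hn
      have h3 := hAT m hm
      have h4 : (q : ℤ) ∣ m + v i := by
        have h5 : (q : ℤ) ∣ ((m - T₀ + w i : ℕ) : ℤ) := Int.natCast_dvd_natCast.2 hqd
        have h6 : ((m - T₀ + w i : ℕ) : ℤ) = m + v i := by
          rw [Nat.cast_add, Nat.cast_sub h3.le, hw i]
          ring
        rwa [h6] at h5
      refine lt_of_le_of_lt ?_ ((hA m hm).2.2.2 i q hq h4)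
      have h5 : (X : ℝ) ≤ x ^ 2 := by nlinarith
      calc (X : ℝ) ^ (δ / 2) ≤ (x ^ 2) ^ (δ / 2) := Real.rpow_le_rpow hX0.le h5 (by positivity)
        _ = x ^ δ := by
          rw [← Real.rpow_natCast x 2, ← Real.rpow_mul (by linarith)]
          congr 1
          push_cast
          ring
    · have h3 : (A.image (fun n => n - T₀)).card = A.card := by
        apply card_image_of_injOn
        intro a ha b hb hab
        have h4 := hAT a (mem_coe.1 ha)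
        have h5 := hAT b (mem_coe.1 hb)
        simp only at hab
        omega
      rw [h3]
      refine le_trans ?_ hc
      have hlx : 0 < Real.log x := Real.log_pos (by linarith)
      have hlX : Real.log x ≤ Real.log X := Real.log_le_log (by linarith) hX3
      have h4 : (X : ℝ) / Real.log X ^ κ ≤ 4 * x / Real.log x ^ κ :=
        div_le_div₀ (by linarith) hX1 (by positivity) (pow_le_pow_left₀ hlx.le hlX _)
      calc ε₁ / 4 * (X / Real.log X ^ κ) ≤ ε₁ / 4 * (4 * x / Real.log x ^ κ) :=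
            mul_le_mul_of_nonneg_left h4 (by positivity)
        _ = ε₁ * (x / Real.log x ^ κ) := by ring
  refine ⟨{X | ∃ P ⊆ Icc 1 X, (∀ n ∈ P, n + T₀ ∈ S) ∧ (∀ n ∈ P, n + T₀ ≤ X) ∧
      (∀ n ∈ P, ∀ i, ∀ q : ℕ, q.Prime → q ∣ n + w i → (X : ℝ) ^ (δ / 2) < q) ∧
      ε₁ / 4 * (X / Real.log X ^ κ) ≤ P.card}, ?_, ?_⟩
  · rw [Set.infinite_iff_exists_gt]
    intro a
    obtain ⟨X, h1, h2⟩ := key (a + 1)
    exact ⟨X, h2, by omega⟩
  · intro k ε hε hε1
    obtain ⟨B, X₀, hm⟩ := manyK w hwi (k + 1) ε (δ / 2) (ε₁ / 4) hε hε1 (by positivity)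
      (by positivity)
    obtain ⟨X₁, hX₁⟩ := log_ev 1
    refine ⟨max B (max X₀ X₁), ?_⟩
    rintro X ⟨P, hP1, hP2, hP3, hP4, hP5⟩ hX H D hH hBD hHD hDX T hTk hT
    have hX0 : X₀ ≤ X := ((le_max_left _ _).trans (le_max_right _ _)).trans hX
    have hl := hX₁ X (((le_max_right _ _).trans (le_max_right _ _)).trans hX)
    have hBD' : Real.log X ^ B ≤ D :=
      (pow_le_pow_right₀ hl (le_max_left _ _)).trans hBD
    have h1 := hm X H D hX0 hH hBD' hHD hDX P hP1 hP4 hP5 (insert 0 T)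
      ((card_insert_le _ _).trans (by omega)) (by
        intro t ht
        rcases mem_insert.1 ht with rfl | ht
        · exact Nat.zero_le _
        · exact hT t ht)
    refine h1.trans ?_
    have hfin : ∀ d : ℕ, ({n : ℕ | n ∈ Set.Icc 1 X ∧ ∀ t ∈ T, n + d * t ∈ S}).Finite := fun d =>
      (Set.finite_Icc 1 X).subset fun n hn => hn.1
    have h2 : ∀ d : ℕ, (((Icc 1 X).filter (fun n => ∀ t ∈ insert 0 T, n + d * t ∈ P)).card : ℝ) ≤
        ({n : ℕ | n ∈ Set.Icc 1 X ∧ ∀ t ∈ T, n + d * t ∈ S}.ncard : ℝ) := by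
      intro d
      have h3 : ((Icc 1 X).filter (fun n => ∀ t ∈ insert 0 T, n + d * t ∈ P)).card ≤
          {n : ℕ | n ∈ Set.Icc 1 X ∧ ∀ t ∈ T, n + d * t ∈ S}.ncard := by
        rw [← Set.ncard_coe_finset]
        refine Set.ncard_le_ncard_of_injOn (fun n => n + T₀) ?_ ?_ (hfin d)
        · intro n hn
          rw [mem_coe, mem_filter] at hn
          have h4 : n ∈ P := by simpa using hn.2 0 (mem_insert_self _ _)
          refine ⟨⟨?_, hP3 n h4⟩, fun t ht => ?_⟩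
          · have := (mem_Icc.1 hn.1).1
            omega
          · have h5 := hP2 _ (hn.2 t (mem_insert_of_mem ht))
            have e : n + T₀ + d * t = n + d * t + T₀ := by ring
            rw [e]
            exact h5
        · intro a _ b _ hab
          simpa using hab
      exact_mod_cast h3
    have h3 : ((Icc 1 D).filter (fun d => (X : ℝ) / (D : ℝ) ^ ε ≤
          (((Icc 1 X).filter (fun n => ∀ t ∈ insert 0 T, n + d * t ∈ P)).card : ℝ))).card ≤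
        {d : ℕ | d ∈ Set.Icc 1 D ∧ (X : ℝ) / (D : ℝ) ^ ε ≤
        ({n : ℕ | n ∈ Set.Icc 1 X ∧ ∀ t ∈ T, n + d * t ∈ S}.ncard : ℝ)}.ncard := by
      rw [← Set.ncard_coe_finset]
      refine Set.ncard_le_ncard ?_ ((Set.finite_Icc 1 D).subset fun n hn => hn.1)
      intro d hd
      rw [mem_coe, mem_filter, mem_Icc] at hd
      exact ⟨hd.1, hd.2.trans (h2 d)⟩
    exact_mod_cast h3

end Pool.Agent.Helper51.UD.HP
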