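import Pool.Graph.R_seed8.Y520.NP.BM
import Pool.Agent.Helper51.UD.HP.Pos

/-!
# `S_BLK` implies `S_BMP` (limit along an ultrafilter); the first part of the proof is that of
`Pool.Agent.Y520.NP.bm`
-/

set_option autoImplicit false

open Finset Filter Topology

namespace Pool.Agent.Helper51.UD.HP

open Pool.Agent.Y520.NP
open Pool.Agent.H361R2.Inf (FMeas)

/-- (BM) finitely additive measures for every number `J` of blocks; sets of positive measure
contain a positive proportion of tuples of rough numbers -/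
def S_BMP : Prop := ∃ off : ℕ → ℕ, StrictMono off ∧ off 0 = 0 ∧ ∀ J : ℕ, ∃ z : ℕ,
  ∀ (W a0 : ℕ) (t : ℕ → ℕ), 0 < W → Squarefree W → (∀ p : ℕ, p.Prime → p ≤ z → p ∣ W) →
    (∀ i < off J, ∀ j < off J, i ≠ j → ∀ p : ℕ, p.Prime → (p : ℤ) ∣ (t i : ℤ) - t j → p ∣ W) →
    (∀ i < off J, Nat.Coprime (a0 + t i) W) →
    ∃ m : Set ℕ → ℝ, FMeas m ∧ m Set.univ ≤ 2 ∧
      (∀ s < J, (1 / 10 : ℝ) ≤ m {n | ∃ i ∈ Ico (off s) (off (s + 1)), (n + t i).Prime}) ∧
      ∀ S : Set ℕ, 0 < m S → POS {n | n ∈ S ∧ n ≡ a0 [MOD W]}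

/-- BM -/
theorem bmp (hB : S_BLK) : S_BMP := by
  classical
  obtain ⟨off, hoff, h0, hB⟩ := hB
  refine ⟨off, hoff, h0, fun J => ?_⟩
  obtain ⟨z, hz⟩ := hB J
  refine ⟨z, fun W a0 t hW hsq hWz hdiff hcop => ?_⟩
  obtain ⟨mu, hev, hβ⟩ := hz W a0 t hW hsq hWz hdiff hcop
  have hinj := shifts_inj hW hdiff
  let F : Ultrafilter ℝ := Ultrafilter.of atTop
  have hF : (F : Filter ℝ) ≤ atTop := Ultrafilter.of_le _
  have hevF := hev.filter_mono hF
  have hnn : ∀ A : Set ℕ, ∀ᶠ x in (F : Filter ℝ), 0 ≤ wt mu A x := by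
    intro A
    filter_upwards [hevF] with x hx
    exact Finset.sum_nonneg fun n _ => hx.1 n
  have hle : ∀ A : Set ℕ, ∀ᶠ x in (F : Filter ℝ), wt mu A x ≤ 2 := by
    intro A
    filter_upwards [hevF] with x hx
    unfold wt
    exact (Finset.sum_le_sum_of_subset_of_nonneg (Finset.filter_subset _ _)
      fun n _ _ => hx.1 n).trans hx.2.2.1
  have hlim : ∀ A : Set ℕ, ∃ y : ℝ, y ∈ Set.Icc (0:ℝ) 2 ∧
      Tendsto (wt mu A) (F : Filter ℝ) (𝓝 y) := by
    intro A
    have h1 : (F.map (wt mu A) : Filter ℝ) ≤ 𝓟 (Set.Icc (0:ℝ) 2) := by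
      rw [Filter.le_principal_iff, Ultrafilter.mem_coe, Ultrafilter.mem_map]
      filter_upwards [hnn A, hle A] with x h1 h2
      exact ⟨h1, h2⟩
    obtain ⟨y, hy, hy2⟩ := isCompact_Icc.ultrafilter_le_nhds (F.map (wt mu A)) h1
    exact ⟨y, hy, hy2⟩
  choose m hm1 hm2 using hlim
  refine ⟨m, ⟨fun A => (hm1 A).1, fun A B hAB => ?_, fun A hA => ?_⟩, (hm1 _).2,
    fun s hs => ?_, fun S hS => ?_⟩
  · have h1 : Tendsto (wt mu (A ∪ B)) (F : Filter ℝ) (𝓝 (m A + m B)) := by
      have h2 := (hm2 A).add (hm2 B)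
      refine h2.congr fun x => ?_
      rw [wt_union mu A B hAB x]
    exact tendsto_nhds_unique (hm2 _) h1
  · have h1 : Tendsto (wt mu A) (F : Filter ℝ) (𝓝 0) := by
      apply tendsto_const_nhds.congr'
      obtain ⟨M, hM⟩ := hA.bddAbove
      filter_upwards [hevF, hF (eventually_ge_atTop (M : ℝ))] with x hx hxM
      symm
      unfold wt
      apply Finset.sum_eq_zero
      intro n hn
      by_contra hne
      have h2 := (hx.2.1 n hne).1
      have h3 : n ≤ M := hM (Finset.mem_filter.1 hn).2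
      have h4 : (n : ℝ) ≤ M := by exact_mod_cast h3
      linarith
    exact tendsto_nhds_unique (hm2 _) h1
  · refine ge_of_tendsto (hm2 _) ?_
    filter_upwards [hevF] with x hx
    unfold wt
    have h3 := hx.2.2.2 s hs
    refine h3.trans (le_of_eq (Finset.sum_congr ?_ fun _ _ => rfl))
    ext n
    simp only [Finset.mem_filter]
    exact Iff.rfl
  · obtain ⟨δ, D, hδ, hD, hev2⟩ := hβ (m S / 4) (by linarith)
    refine ⟨off J, fun i => (t i : ℤ), δ, m S / 4 / D, 0, ?_, hδ, by positivity, fun n₀ => ?_⟩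
    · intro i j hij
      have hij' : t i = t j := by simpa using hij
      exact Fin.ext (hinj (by simp) (by simp) hij')
    have hev2F := hev2.filter_mono hF
    have hgt : ∀ᶠ x in (F : Filter ℝ), m S / 2 < wt mu S x :=
      (hm2 S).eventually (lt_mem_nhds (by linarith))
    have he2 : ∀ᶠ x in (F : Filter ℝ), (n₀ : ℝ) ≤ x := hF (eventually_ge_atTop (n₀ : ℝ))
    have he3 : ∀ᶠ x in (F : Filter ℝ), (2 : ℝ) < x := hF (eventually_gt_atTop (2 : ℝ))
    obtain ⟨X, hX1, hX2, hX3, hX5, hX6⟩ :=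
      (hevF.and (hev2F.and (hgt.and (he2.and he3)))).exists
    obtain ⟨hmu0, hsupp, -, -⟩ := hX1
    obtain ⟨hnr, hbd⟩ := hX2
    have hlog : 0 < Real.log X := Real.log_pos (by linarith)
    have hlK : 0 < Real.log X ^ off J := pow_pos hlog _
    have hX0 : 0 < X := by linarith
    set Rgh : ℕ → Prop := fun n => ∀ i < off J, ∀ p : ℕ, p.Prime → p ∣ n + t i → X ^ δ < p with hRgh
    set A : Finset ℕ := (Icc 1 ⌊3 * X⌋₊).filter (fun n => n ∈ S ∧ Rgh n ∧ mu X n ≠ 0) with hA
    -- the mass of `A`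
    have hmass : m S / 4 ≤ ∑ n ∈ A, mu X n := by
      have h1 : wt mu S X ≤ ∑ n ∈ A, mu X n +
          ∑ n ∈ (Icc 1 ⌊3 * X⌋₊).filter (fun n => ¬ Rgh n), mu X n := by
        unfold wt
        have h2 : ∑ n ∈ A, mu X n = ∑ n ∈ (Icc 1 ⌊3 * X⌋₊), if n ∈ S ∧ Rgh n ∧ mu X n ≠ 0 then
            mu X n else 0 := by
          rw [hA, Finset.sum_filter]
        rw [h2, Finset.sum_filter, Finset.sum_filter, ← Finset.sum_add_distrib]
        apply Finset.sum_le_sum
        intro n _
        have h0 := hmu0 n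
        by_cases hnS : n ∈ S
        · by_cases hnR : Rgh n
          · by_cases hne : mu X n = 0
            · simp [hne]
            · simp [hnS, hnR, hne]
          · simp [hnS, hnR]
        · have h3 : ¬ (n ∈ S ∧ Rgh n ∧ mu X n ≠ 0) := fun h => hnS h.1
          rw [if_neg hnS, if_neg h3, zero_add]
          split_ifs
          · exact le_rfl
          · exact h0
      have h3 : ∑ n ∈ (Icc 1 ⌊3 * X⌋₊).filter (fun n => ¬ Rgh n), mu X n ≤ m S / 4 := hnr
      linarith
    refine ⟨X, hX5, A, fun n hn => ?_, ?_⟩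
    · obtain ⟨h1, h2, h3⟩ := (Finset.mem_filter.1 hn).2
      obtain ⟨h4, h5, h6⟩ := hsupp n h3
      refine ⟨⟨h1, h6⟩, h4, by push_cast; linarith, fun i p hp hpd => ?_⟩
      refine h2 i i.2 p hp ?_
      have h7 : (p : ℤ) ∣ ((n + t i : ℕ) : ℤ) := by push_cast; exact hpd
      exact Int.natCast_dvd_natCast.1 h7
    · have h1 : ∑ n ∈ A, mu X n ≤ A.card * (D * Real.log X ^ off J / X) := by
        calc ∑ n ∈ A, mu X n ≤ ∑ _n ∈ A, D * Real.log X ^ off J / X := by
              apply Finset.sum_le_sum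
              intro n hn
              exact hbd n (Finset.mem_filter.1 hn).2.2.1
          _ = A.card * (D * Real.log X ^ off J / X) := by
              rw [Finset.sum_const, nsmul_eq_mul]
      have h2 : m S / 4 ≤ A.card * (D * Real.log X ^ off J / X) := hmass.trans h1
      have h3 : m S / 4 * X ≤ A.card * (D * Real.log X ^ off J / X) * X :=
        mul_le_mul_of_nonneg_right h2 hX0.le
      have h4 : A.card * (D * Real.log X ^ off J / X) * X =
          A.card * Real.log X ^ off J * D := by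
        field_simp
      have h5 : m S / 4 / D * (X / Real.log X ^ off J) = m S / 4 * X / (D * Real.log X ^ off J) := by
        field_simp
      rw [h5, div_le_iff₀ (by positivity)]
      linarith

end Pool.Agent.Helper51.UD.HP
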