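import Pool.Graph.R_pool_sql_team_seeded_1acbe0a2.Y574.NP.Inf
import Pool.Agent.Helper51.UD.HP.Bm

/-!
# Infinite exact coloured prime patterns for a positive proportion of tuples of rough numbers
(the proof of `Pool.Agent.Y574.NP.inf` with `POS` in place of `NAP`)
-/

set_option autoImplicit false

open Finset Filter Topology

namespace Pool.Agent.Helper51.UD.HP

open Pool.Agent.Y520.NP
open Pool.Agent.Y574.NP (crt)
open Pool.Agent.H361R2.Inf (FMeas)

/-- (INF) every infinite set of integers contains an infinite exact prime pattern which occurs for a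
positive proportion of tuples of rough numbers, also with a finite colouring of the primes -/
def S_INFP : Prop := ∀ (r : ℕ) (χ : ℕ → Fin (r + 1)) (F : Set ℤ), F.Infinite →
  ∃ G ⊆ F, G.Infinite ∧ ∃ γ : ℤ → Fin (r + 1), ∀ R : ℕ,
    POS {n : ℕ | ∀ y : ℤ, |y| ≤ R → ((Nat.Prime ((n : ℤ) + y).toNat ↔ y ∈ G) ∧
      (y ∈ G → χ ((n : ℤ) + y).toNat = γ y))}

/-- the measure for one `J` -/
theorem oneP (off : ℕ → ℕ) (hoff : StrictMono off) (J z : ℕ)
    (hBM : ∀ (W a0 : ℕ) (t : ℕ → ℕ), 0 < W → Squarefree W →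
      (∀ p : ℕ, p.Prime → p ≤ z → p ∣ W) →
      (∀ i < off J, ∀ j < off J, i ≠ j → ∀ p : ℕ, p.Prime → (p : ℤ) ∣ (t i : ℤ) - t j → p ∣ W) →
      (∀ i < off J, Nat.Coprime (a0 + t i) W) →
      ∃ m : Set ℕ → ℝ, FMeas m ∧ m Set.univ ≤ 2 ∧
        (∀ s < J, (1 / 10 : ℝ) ≤ m {n | ∃ i ∈ Ico (off s) (off (s + 1)), (n + t i).Prime}) ∧
        ∀ S : Set ℕ, 0 < m S → POS {n | n ∈ S ∧ n ≡ a0 [MOD W]})
    (f : ℕ → ℤ) (hf : Function.Injective f) (np : ℕ → ℕ)
    (hnp : ∀ p : ℕ, p.Prime → ∀ i, ¬ (p : ℤ) ∣ np p + f i) :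
    ∃ m : Set ℕ → ℝ, FMeas m ∧ m Set.univ ≤ 2 ∧
      (∀ s < J, (1 / 10 : ℝ) ≤ m {n | ∃ i ∈ Ico (off s) (off (s + 1)),
        ((n : ℤ) + f i).toNat.Prime}) ∧
      ∀ S : Set ℕ, 0 < m S → POS {n : ℕ | n ∈ S ∧ ∀ y : ℤ, |y| ≤ J → (∀ i < off J, f i ≠ y) →
        ¬ ((n : ℤ) + y).toNat.Prime} := by
  classical
  obtain ⟨T, hTJ, hT⟩ : ∃ T : ℕ, J ≤ T ∧ ∀ i < off J, |f i| ≤ T := by
    refine ⟨J + ∑ i ∈ range (off J), (f i).natAbs, by omega, fun i hi => ?_⟩
    have h1 : (f i).natAbs ≤ ∑ i ∈ range (off J), (f i).natAbs :=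
      Finset.single_le_sum (f := fun i => (f i).natAbs) (fun _ _ => Nat.zero_le _)
        (mem_range.2 hi)
    rw [Int.abs_eq_natAbs]
    exact_mod_cast (by omega : (f i).natAbs ≤ J + ∑ i ∈ range (off J), (f i).natAbs)
  obtain ⟨P, hPz, hPT⟩ : ∃ P : ℕ, z ≤ P ∧ 2 * T ≤ P :=
    ⟨max z (2 * T), le_max_left _ _, le_max_right _ _⟩
  -- the primes `q u`
  obtain ⟨q, hqp, hqinj, hqP⟩ : ∃ q : ℕ → ℕ, (∀ u, (q u).Prime) ∧ Function.Injective q ∧
      ∀ u, P < q u := by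
    refine ⟨fun u => Nat.nth Nat.Prime (P + u), fun u => Nat.prime_nth_prime _, ?_, fun u => ?_⟩
    · intro u v huv
      have h1 := (Nat.nth_strictMono Nat.infinite_setOfPred_prime).injective huv
      omega
    · have h1 := Nat.add_two_le_nth_prime (P + u)
      show P < Nat.nth Nat.Prime (P + u)
      omega
  obtain ⟨Y, hY⟩ : ∃ Y : Finset ℕ, ∀ u, u ∈ Y ↔ u < 2 * J + 1 ∧
      ∀ i < off J, f i ≠ (u : ℤ) - J :=
    ⟨(range (2 * J + 1)).filter (fun u => ∀ i < off J, f i ≠ (u : ℤ) - J), fun u => by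
      rw [mem_filter, mem_range]⟩
  obtain ⟨Q, hQ⟩ : ∃ Q : Finset ℕ, ∀ p, p ∈ Q ↔ (p ≤ P ∧ p.Prime) ∨ ∃ u ∈ Y, q u = p :=
    ⟨(range (P + 1)).filter Nat.Prime ∪ Y.image q, fun p => by
      rw [mem_union, mem_filter, mem_range, mem_image, Nat.lt_succ_iff]⟩
  have hQp : ∀ p ∈ Q, p.Prime := by
    intro p hp
    rcases (hQ p).1 hp with h | ⟨u, _, rfl⟩
    · exact h.2
    · exact hqp u
  obtain ⟨W, hWdef⟩ : ∃ W : ℕ, W = ∏ p ∈ Q, p := ⟨_, rfl⟩
  have hWQ : ∀ p : ℕ, p.Prime → (p ∣ W ↔ p ∈ Q) := by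
    intro p hp
    rw [hWdef, (Nat.prime_iff.1 hp).dvd_finsetProd_iff]
    constructor
    · rintro ⟨x, hx, hpx⟩
      rw [(Nat.prime_dvd_prime_iff_eq hp (hQp x hx)).1 hpx]
      exact hx
    · intro h
      exact ⟨p, h, dvd_rfl⟩
  have hW0 : 0 < W := by
    rw [hWdef]
    exact Finset.prod_pos fun p hp => (hQp p hp).pos
  have hWsq : Squarefree W := by
    rw [hWdef]
    refine Finset.squarefree_prod_of_pairwise_isCoprime ?_ ?_
    · intro p hp p' hp' hne
      exact Nat.coprime_iff_isRelPrime.1 ((Nat.coprime_primes (hQp p hp) (hQp p' hp')).2 hne)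
    · intro p hp
      exact (Nat.prime_iff.1 (hQp p hp)).squarefree
  obtain ⟨ν, hν⟩ := crt Q hQp
    (fun p => if p ≤ P then (np p : ℤ) else (J : ℤ) - (Function.invFun q p : ℕ))
  have hν1 : ∀ p : ℕ, p.Prime → p ≤ P → (p : ℤ) ∣ ν - np p := by
    intro p hp hpP
    have h1 := hν p ((hQ p).2 (Or.inl ⟨hpP, hp⟩))
    simp only [if_pos hpP] at h1
    exact h1
  have hν2 : ∀ u ∈ Y, ((q u : ℕ) : ℤ) ∣ (ν : ℤ) + (u - J) := by
    intro u hu
    have h1 := hν (q u) ((hQ _).2 (Or.inr ⟨u, hu, rfl⟩))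
    have h2 : ¬ q u ≤ P := not_le.2 (hqP u)
    simp only [if_neg h2, Function.leftInverse_invFun hqinj u] at h1
    have e : (ν : ℤ) + (u - J) = ν - (J - u) := by ring
    rw [e]
    exact h1
  obtain ⟨a0, ha0⟩ : ∃ a0 : ℕ, a0 + T = ν + W * T := ⟨ν + W * T - T, by
    have : T ≤ W * T := Nat.le_mul_of_pos_left _ hW0
    omega⟩
  have ha0' : (a0 : ℤ) + T = ν + W * T := by exact_mod_cast ha0
  obtain ⟨t, ht⟩ : ∃ t : ℕ → ℕ, ∀ i < off J, ((t i : ℕ) : ℤ) = f i + T :=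
    ⟨fun i => (f i + T).toNat, fun i hi => Int.toNat_of_nonneg (by
      have := (abs_le.1 (hT i hi)).1
      linarith)⟩
  obtain ⟨m, hm, hm2, hmB, hmS⟩ := hBM W a0 t hW0 hWsq
    (fun p hp hpz => (hWQ p hp).2 ((hQ p).2 (Or.inl ⟨hpz.trans hPz, hp⟩)))
    (by
      intro i hi j hj hij p hp hdvd
      rw [ht i hi, ht j hj] at hdvd
      have h1 : f i + T - (f j + T) = f i - f j := by ring
      rw [h1] at hdvd
      have h2 : f i - f j ≠ 0 := sub_ne_zero.2 fun h => hij (hf h)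
      have h3 := Int.le_of_dvd (abs_pos.2 h2) ((dvd_abs _ _).2 hdvd)
      have h4 := hT i hi
      have h5 := hT j hj
      have h6 : |f i - f j| ≤ 2 * T := by
        have := abs_sub (f i) (f j)
        linarith
      have h7 : p ≤ 2 * T := by exact_mod_cast h3.trans h6
      exact (hWQ p hp).2 ((hQ p).2 (Or.inl ⟨h7.trans hPT, hp⟩)))
    (by
      intro i hi
      refine Nat.coprime_of_dvd fun p hp h1 h2 => ?_
      have h3 : (p : ℤ) ∣ ((a0 + t i : ℕ) : ℤ) := Int.natCast_dvd_natCast.2 h1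
      have h4 : (p : ℤ) ∣ (W : ℤ) := Int.natCast_dvd_natCast.2 h2
      have h5 : ((a0 + t i : ℕ) : ℤ) = (ν + f i) + W * T := by
        push_cast
        rw [ht i hi]
        linear_combination ha0'
      rw [h5] at h3
      have h6 : (p : ℤ) ∣ ν + f i := (dvd_add_left (Dvd.dvd.mul_right h4 _)).1 h3
      rcases (hQ p).1 ((hWQ p hp).1 h2) with ⟨h7, _⟩ | ⟨u, hu, rfl⟩
      · have h8 := dvd_sub h6 (hν1 p hp h7)
        have e : (ν : ℤ) + f i - (ν - np p) = np p + f i := by ring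
        rw [e] at h8
        exact hnp p hp i h8
      · have h8 := dvd_sub h6 (hν2 u hu)
        have e : (ν : ℤ) + f i - (ν + (u - J)) = f i - (u - J) := by ring
        rw [e] at h8
        obtain ⟨hu1, hu2⟩ := (hY u).1 hu
        have h9 : f i - ((u : ℤ) - J) ≠ 0 := sub_ne_zero.2 (hu2 i hi)
        have h10 := Int.le_of_dvd (abs_pos.2 h9) ((dvd_abs _ _).2 h8)
        have h11 := hT i hi
        have h12 : |(u : ℤ) - J| ≤ J := by
          rw [abs_le]
          constructor <;> omega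
        have h13 := abs_sub (f i) ((u : ℤ) - J)
        have h14 := hqP u
        have h15 : |f i - ((u : ℤ) - J)| ≤ 2 * T := by
          have : (J : ℤ) ≤ T := by exact_mod_cast hTJ
          linarith
        have h16 : q u ≤ 2 * T := by exact_mod_cast h10.trans h15
        omega)
  refine ⟨fun S => m {n | n + T ∈ S}, ⟨fun S => hm.nonneg _, fun S S' hS => ?_, fun S hS => ?_⟩,
    hm2, ?_, ?_⟩
  · exact hm.add {n | n + T ∈ S} {n | n + T ∈ S'} (by
      rw [Set.disjoint_left] at hS ⊢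
      intro n h2 h3
      exact hS h2 h3)
  · apply hm.fin
    apply hS.preimage
    intro x _ y _ hxy
    simp only at hxy
    omega
  · intro s hs
    refine (hmB s hs).trans (le_of_eq ?_)
    congr 1
    ext n
    simp only [Set.mem_ofPred_eq]
    refine exists_congr fun i => and_congr_right fun hi => ?_
    have hi2 : i < off J := (mem_Ico.1 hi).2.trans_le (hoff.monotone hs)
    have e : (((n + T : ℕ) : ℤ) + f i) = ((n + t i : ℕ) : ℤ) := by
      push_cast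
      rw [ht i hi2]
      ring
    rw [e, Int.toNat_natCast]
  · intro S hS
    have h1 := hmS _ hS
    have h2 : POS {n : ℕ | n ∈ S ∧ n ≡ ν [MOD W]} := by
      refine pos_shift T (pos_mono 0 ?_ h1)
      rintro n ⟨h3, h4⟩ -
      refine ⟨h3, ?_⟩
      have h5 : n + T ≡ a0 + T [MOD W] := h4.add_right T
      rw [ha0] at h5
      refine h5.trans ?_
      have h6 : ν + W * T ≡ ν + 0 [MOD W] :=
        Nat.ModEq.add_left ν ((Nat.modEq_zero_iff_dvd).2 (Dvd.intro _ rfl))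
      exact h6
    obtain ⟨n₁, hn₁⟩ : ∃ n₁ : ℕ, ∀ u ∈ Y, q u + J + 1 ≤ n₁ := by
      refine ⟨∑ u ∈ Y, (q u + J + 1), fun u hu => ?_⟩
      exact Finset.single_le_sum (f := fun u => q u + J + 1) (fun _ _ => Nat.zero_le _) hu
    refine pos_mono n₁ ?_ h2
    rintro n ⟨h3, h4⟩ hn
    refine ⟨h3, fun y hy hfy hpr => ?_⟩
    have hy' := abs_le.1 hy
    obtain ⟨u, hu⟩ : ∃ u : ℕ, (u : ℤ) = y + J := ⟨(y + J).toNat, Int.toNat_of_nonneg (by linarith)⟩
    have huY : u ∈ Y := by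
      rw [hY]
      refine ⟨by omega, fun i hi h => hfy i hi ?_⟩
      rw [h, hu]
      ring
    have h5 := hν2 u huY
    have h6 : (W : ℤ) ∣ (n : ℤ) - ν := by
      have := (Int.natCast_modEq_iff.2 h4).symm.dvd
      exact this
    have h7 : ((q u : ℕ) : ℤ) ∣ (W : ℤ) :=
      Int.natCast_dvd_natCast.2 ((hWQ _ (hqp u)).2 ((hQ _).2 (Or.inr ⟨u, huY, rfl⟩)))
    have h8 : ((q u : ℕ) : ℤ) ∣ (n : ℤ) + y := by
      have h9 := dvd_add (h7.trans h6) h5
      have e : (n : ℤ) - ν + (ν + (u - J)) = n + y := by rw [hu]; ring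
      rwa [e] at h9
    have h9 := hn₁ u huY
    have h10 : (0 : ℤ) ≤ (n : ℤ) + y := by omega
    have h11 : (((n : ℤ) + y).toNat : ℤ) = n + y := Int.toNat_of_nonneg h10
    have h12 : q u ∣ ((n : ℤ) + y).toNat := by
      rw [← Int.natCast_dvd_natCast, h11]
      exact h8
    have h13 := (Nat.prime_dvd_prime_iff_eq (hqp u) hpr).1 h12
    omega

/-- INF -/
theorem infP (h : S_BMP) : S_INFP := by
  classical
  intro r χ F hF
  obtain ⟨off, hoff, hoff0, hBM⟩ := h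
  choose z hBM using hBM
  have hne0 : ∀ j : ℕ, NeZero (Nat.factorial (j + 3)) := fun j => ⟨Nat.factorial_ne_zero _⟩
  obtain ⟨f, hinj, hfF, hcol⟩ := Pool.Agent.H361R2.Inf.exists_seq
    (fun j => ZMod (Nat.factorial (j + 3)))
    (fun j (x : ℤ) => (x : ZMod (Nat.factorial (j + 3)))) F hF
  have hB : ∀ j i, j ≤ i → f i ≡ f j [ZMOD (Nat.factorial (j + 3) : ℕ)] := by
    intro j i hji
    exact (ZMod.intCast_eq_intCast_iff _ _ _).mp (hcol j i hji)
  have havoid : ∀ p : ℕ, p.Prime → ∃ n : ℕ, ∀ i, ¬ (p : ℤ) ∣ n + f i := by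
    intro p hp
    obtain ⟨n, hn⟩ := Pool.Agent.H361R2.Inf.avoid (fun _ => 1) f (fun i => isCoprime_one_left)
      (fun j i _ => Int.ModEq.refl _) hB p hp
    refine ⟨n, fun i hi => hn i ?_⟩
    simpa using hi
  choose! np hnp using havoid
  have hone := fun J : ℕ => oneP off hoff J (z J) (hBM J) f hinj np hnp
  choose M hM hM2 hMc hMS using hone
  set U : Ultrafilter ℕ := Ultrafilter.of atTop with hU
  have hUle : (U : Filter ℕ) ≤ atTop := Ultrafilter.of_le _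
  have hlim : ∀ S : Set ℕ, ∃ l : ℝ, Tendsto (fun J => M J S) U (𝓝 l) := by
    intro S
    have hc1 : IsCompact (Set.Icc (0 : ℝ) 2) := isCompact_Icc
    have h1 : ((U.map (fun J => M J S) : Ultrafilter ℝ) : Filter ℝ) ≤ 𝓟 (Set.Icc (0 : ℝ) 2) := by
      rw [le_principal_iff, Ultrafilter.mem_coe, Ultrafilter.mem_map]
      apply Filter.univ_mem'
      intro J
      exact ⟨(hM J).nonneg S, (Pool.Agent.H361R2.Inf.T1.mono (hM J) (Set.subset_univ S)).trans
        (hM2 J)⟩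
    obtain ⟨l, _, hl⟩ := hc1.ultrafilter_le_nhds _ h1
    exact ⟨l, hl⟩
  choose m hm using hlim
  have hmF : FMeas m := by
    refine ⟨fun S => ?_, fun S T hST => ?_, fun S hS => ?_⟩
    · exact ge_of_tendsto' (hm S) fun J => (hM J).nonneg S
    · have h1 := (hm S).add (hm T)
      have h2 := hm (S ∪ T)
      have h3 : (fun J => M J (S ∪ T)) = fun J => M J S + M J T := by
        ext J
        exact (hM J).add S T hST
      rw [h3] at h2
      exact tendsto_nhds_unique h2 h1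
    · have h1 := hm S
      have h2 : (fun J => M J S) = fun _ => 0 := by
        ext J
        exact (hM J).fin S hS
      rw [h2] at h1
      exact tendsto_nhds_unique h1 tendsto_const_nhds
  -- the events
  obtain ⟨E, hE⟩ : ∃ E : ℕ → Set ℕ, ∀ (i : ℕ) (c : Fin (r + 1)) (n : ℕ),
      n ∈ E (i * (r + 1) + c) ↔ ((n : ℤ) + f i).toNat.Prime ∧ χ ((n : ℤ) + f i).toNat = c := by
    refine ⟨fun l => {n | ((n : ℤ) + f (l / (r + 1))).toNat.Prime ∧
      ((χ ((n : ℤ) + f (l / (r + 1))).toNat : Fin (r + 1)) : ℕ) = l % (r + 1)}, fun i c n => ?_⟩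
    have h1 : (i * (r + 1) + (c : ℕ)) / (r + 1) = i := by
      rw [add_comm, Nat.add_mul_div_right _ _ (Nat.succ_pos r), Nat.div_eq_of_lt c.2, zero_add]
    have h2 : (i * (r + 1) + (c : ℕ)) % (r + 1) = c := by
      rw [add_comm, Nat.add_mul_mod_self_right, Nat.mod_eq_of_lt c.2]
    simp only [Set.mem_ofPred_eq]
    rw [h1, h2, Fin.val_inj]
  have hcode : ∀ l : ℕ, ∃ (i : ℕ) (c : Fin (r + 1)), l = i * (r + 1) + c := by
    intro l
    refine ⟨l / (r + 1), ⟨l % (r + 1), Nat.mod_lt _ (Nat.succ_pos r)⟩, ?_⟩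
    exact (Nat.div_add_mod' l (r + 1)).symm
  obtain ⟨I, hI, hIN⟩ := Pool.Agent.H361R2.Inf.comb m hmF (fun s => (r + 1) * off s)
    (fun a b hab => Nat.mul_lt_mul_of_pos_left (hoff hab) (Nat.succ_pos r)) (by
      show (r + 1) * off 0 = 0
      rw [hoff0, mul_zero]) E (1 / 10) (by norm_num) (by
    intro s
    have h1 : (1 / 10 : ℝ) ≤ m {n | ∃ i ∈ Ico (off s) (off (s + 1)),
        ((n : ℤ) + f i).toNat.Prime} := by
      apply ge_of_tendsto (hm _)
      have h1 : ∀ᶠ J in (U : Filter ℕ), s < J := hUle (eventually_gt_atTop s)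
      filter_upwards [h1] with J hJ
      exact hMc J s hJ
    refine h1.trans (Pool.Agent.H361R2.Inf.T1.mono hmF ?_)
    rintro n ⟨i, hi, hp⟩
    rw [mem_Ico] at hi
    refine ⟨i * (r + 1) + (χ ((n : ℤ) + f i).toNat : Fin (r + 1)), ?_, (hE _ _ _).2 ⟨hp, rfl⟩⟩
    rw [mem_Ico]
    have hc := (χ ((n : ℤ) + f i).toNat : Fin (r + 1)).2
    constructor
    · calc (r + 1) * off s ≤ (r + 1) * i := Nat.mul_le_mul_left _ hi.1
        _ = i * (r + 1) := mul_comm _ _
        _ ≤ _ := Nat.le_add_right _ _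
    · calc i * (r + 1) + ((χ ((n : ℤ) + f i).toNat : Fin (r + 1)) : ℕ) < i * (r + 1) + (r + 1) :=
            Nat.add_lt_add_left hc _
        _ = (r + 1) * (i + 1) := by ring
        _ ≤ (r + 1) * off (s + 1) := Nat.mul_le_mul_left _ hi.2)
  -- at most one colour
  have huniq : ∀ (i : ℕ) (c c' : Fin (r + 1)), i * (r + 1) + c ∈ I → i * (r + 1) + c' ∈ I →
      c = c' := by
    intro i c c' h1 h2
    by_contra hne
    have h3 := hIN (i * (r + 1) + (r + 1))
    have h4 : {n | ∀ l < i * (r + 1) + (r + 1), (n ∈ E l ↔ l ∈ I)} = ∅ := by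
      rw [Set.eq_empty_iff_forall_notMem]
      intro n hn
      have h5 := (hE i c n).1 ((hn _ (Nat.add_lt_add_left c.2 _)).2 h1)
      have h6 := (hE i c' n).1 ((hn _ (Nat.add_lt_add_left c'.2 _)).2 h2)
      exact hne (h5.2.symm.trans h6.2)
    rw [h4, hmF.fin ∅ Set.finite_empty] at h3
    exact lt_irrefl _ h3
  obtain ⟨G, hGdef⟩ : ∃ G : Set ℤ, G = {y | ∃ (i : ℕ) (c : Fin (r + 1)), f i = y ∧
      i * (r + 1) + c ∈ I} := ⟨_, rfl⟩
  have hG : ∀ y, y ∈ G ↔ ∃ (i : ℕ) (c : Fin (r + 1)), f i = y ∧ i * (r + 1) + c ∈ I := by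
    intro y
    rw [hGdef]
    rfl
  have hγ : ∀ y : ℤ, ∃ c : Fin (r + 1), ∀ (i : ℕ) (c' : Fin (r + 1)), f i = y →
      i * (r + 1) + c' ∈ I → c' = c := by
    intro y
    by_cases hy : y ∈ G
    · obtain ⟨i, c, h1, h2⟩ := (hG y).1 hy
      refine ⟨c, fun i' c' h3 h4 => ?_⟩
      have h5 : i' = i := hinj (h3.trans h1.symm)
      rw [h5] at h4
      exact huniq i c' c h4 h2
    · exact ⟨0, fun i c' h3 h4 => absurd ((hG y).2 ⟨i, c', h3, h4⟩) hy⟩
  choose γ hγ using hγ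
  refine ⟨G, ?_, ?_, γ, fun R => ?_⟩
  · intro y hy
    obtain ⟨i, c, rfl, _⟩ := (hG y).1 hy
    exact hfF i
  · -- infinite
    intro hfin
    apply hI
    have h1 : {i : ℕ | f i ∈ G}.Finite := hfin.preimage hinj.injOn
    have h2 : I ⊆ (fun p : ℕ × Fin (r + 1) => p.1 * (r + 1) + (p.2 : ℕ)) ''
        ({i : ℕ | f i ∈ G} ×ˢ (Set.univ : Set (Fin (r + 1)))) := by
      intro l hl
      obtain ⟨i, c, rfl⟩ := hcode l
      exact ⟨(i, c), ⟨(hG _).2 ⟨i, c, rfl, hl⟩, Set.mem_univ _⟩, rfl⟩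
    exact ((h1.prod Set.finite_univ).image _).subset h2
  · -- the pattern
    have h1 : {i : ℕ | |f i| ≤ R}.Finite := by
      have h2 : {i : ℕ | |f i| ≤ R} = f ⁻¹' (Set.Icc (-(R : ℤ)) R) := by
        ext i
        simp only [Set.mem_ofPred_eq, Set.mem_preimage, Set.mem_Icc, abs_le]
      rw [h2]
      exact (Set.finite_Icc _ _).preimage hinj.injOn
    obtain ⟨N, hN⟩ : ∃ N : ℕ, ∀ i : ℕ, |f i| ≤ R → (r + 1) * (i + 1) ≤ N := by
      obtain ⟨b, hb⟩ := h1.bddAbove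
      refine ⟨(r + 1) * (b + 1), fun i hi => ?_⟩
      exact Nat.mul_le_mul_left _ (Nat.succ_le_succ (hb hi))
    have h2 : ∀ᶠ J in (U : Filter ℕ), 0 < M J {n | ∀ l < N, (n ∈ E l ↔ l ∈ I)} :=
      (hm _).eventually (lt_mem_nhds (hIN N))
    have h3 : ∀ᶠ J in (U : Filter ℕ), max R N ≤ J := hUle (eventually_ge_atTop _)
    obtain ⟨J, hJ1, hJ2⟩ := (h2.and h3).exists
    have hJR : R ≤ J := (le_max_left _ _).trans hJ2
    have hJN : N ≤ J := (le_max_right _ _).trans hJ2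
    refine pos_mono 0 ?_ (hMS J _ hJ1)
    rintro n ⟨h4, h5⟩ - y hy
    have hsmall : ∀ i, f i = y → (r + 1) * (i + 1) ≤ N := fun i hi => hN i (by rw [hi]; exact hy)
    by_cases hex : ∃ i < off J, f i = y
    · obtain ⟨i, hi, rfl⟩ := hex
      have h6 := hsmall i rfl
      have h7 : ∀ c : Fin (r + 1), (i * (r + 1) + c ∈ I ↔ ((n : ℤ) + f i).toNat.Prime ∧
          χ ((n : ℤ) + f i).toNat = c) := by
        intro c
        rw [← hE]
        refine (h4 _ ?_).symm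
        have := c.2
        calc i * (r + 1) + (c : ℕ) < i * (r + 1) + (r + 1) := Nat.add_lt_add_left this _
          _ = (r + 1) * (i + 1) := by ring
          _ ≤ N := h6
      constructor
      · constructor
        · intro hp
          exact (hG _).2 ⟨i, _, rfl, (h7 _).2 ⟨hp, rfl⟩⟩
        · intro hy'
          obtain ⟨i', c, h8, h9⟩ := (hG _).1 hy'
          rw [hinj h8] at h9
          exact ((h7 c).1 h9).1
      · intro hy'
        obtain ⟨i', c, h8, h9⟩ := (hG _).1 hy'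
        rw [hinj h8] at h9
        rw [((h7 c).1 h9).2]
        exact hγ _ i c rfl h9
    · push Not at hex
      have h6 : y ∉ G := by
        intro hy'
        obtain ⟨i, c, h8, h9⟩ := (hG _).1 hy'
        have h10 := hsmall i h8
        have h11 : i < off J := by
          have h12 : J ≤ off J := hoff.id_le J
          have h13 : i + 1 ≤ (r + 1) * (i + 1) := Nat.le_mul_of_pos_left _ (Nat.succ_pos r)
          omega
        exact hex i h11 h8
      refine ⟨⟨fun hp => absurd hp (h5 y (hy.trans (by exact_mod_cast hJR)) hex),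
        fun h => absurd h h6⟩, fun h => absurd h h6⟩

end Pool.Agent.Helper51.UD.HP
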