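import Pool.Graph.R_pool_sql_team_seeded_1acbe0a2.Y520.NP.Ram
import Pool.Graph.R_pool_sql_team_seeded_1acbe0a2.Y108.NP.Fam
import Pool.Graph.R_seed8.Y291.NP.BLK
import Pool.Agent.Helper51.UD.HP.Inf

/-!
# The hereditary theorem
-/

set_option autoImplicit false

open Finset Filter Topology

namespace Pool.Agent.Helper51.UD.HP

open Pool.Agent.Y520.NP

/-- the points at which the pattern `I` occurs exactly, up to the distance `R`, with colours `γ` -/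
def Pt {r : ℕ} (χ : ℕ → Fin (r + 1)) (I : Set ℤ) (γ : ℤ → Fin (r + 1)) (R : ℕ) : Set ℕ :=
  {n : ℕ | ∀ y : ℤ, |y| ≤ R → ((Nat.Prime ((n : ℤ) + y).toNat ↔ y ∈ I) ∧
      (y ∈ I → χ ((n : ℤ) + y).toNat = γ y))}

theorem her (r : ℕ) (χ : ℕ → Fin (r + 1)) (F : Set ℤ) (hF : F.Infinite) :
    ∃ G ⊆ F, G.Infinite ∧ ∀ I ⊆ G, ∃ γ : ℤ → Fin (r + 1), ∀ R, POS (Pt χ I γ R) := by
  have hI : S_INFP := infP (bmp (Pool.Agent.Y291.NP.blk Pool.Agent.Y108.NP.famb))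
  obtain ⟨G, hGF, hG, h⟩ := Pool.Agent.Y520.NP.ram
    (fun R I => ∃ γ : ℤ → Fin (r + 1), POS (Pt χ I γ R)) (by
      rintro R B B' hBB ⟨γ, h⟩
      refine ⟨γ, pos_mono 0 ?_ h⟩
      intro n hn _ y hy
      obtain ⟨h1, h2⟩ := hn y hy
      exact ⟨h1.trans (hBB y hy), fun h3 => h2 ((hBB y hy).2 h3)⟩) (by
      intro F hF
      obtain ⟨G, hGF, hG, γ, h⟩ := hI r χ F hF
      exact ⟨G, hGF, hG, fun R => ⟨γ, h R⟩⟩) F hF
  refine ⟨G, hGF, hG, fun I hIG => ?_⟩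
  obtain ⟨K, hK⟩ : ∃ K : ℕ → Set (ℤ → Fin (r + 1)), K = fun R => {γ | POS (Pt χ I γ R)} := ⟨_, rfl⟩
  have hmem : ∀ R γ, γ ∈ K R ↔ POS (Pt χ I γ R) := fun R γ => by rw [hK]; rfl
  have hcl : ∀ R, IsClosed (K R) := by
    intro R
    obtain ⟨ρ, hρ⟩ : ∃ ρ : (ℤ → Fin (r + 1)) → (Set.Icc (-(R : ℤ)) R → Fin (r + 1)),
      ρ = fun γ y => γ y := ⟨_, rfl⟩
    have hρc : Continuous ρ := by
      rw [hρ]
      exact continuous_pi fun y => continuous_apply _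
    have e : K R = ρ ⁻¹' (ρ '' (K R)) := by
      refine Set.Subset.antisymm (Set.subset_preimage_image ρ (K R)) ?_
      rintro γ ⟨γ', h1, h2⟩
      rw [hmem] at h1 ⊢
      refine pos_mono 0 ?_ h1
      intro n hn _ y hy
      obtain ⟨h3, h4⟩ := hn y hy
      refine ⟨h3, fun h5 => (h4 h5).trans ?_⟩
      have h6 := congrFun h2 ⟨y, Set.mem_Icc.2 (abs_le.1 hy)⟩
      rw [hρ] at h6
      exact h6
    rw [e]
    exact (isClosed_discrete _).preimage hρc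
  obtain ⟨γ, hγ⟩ := IsCompact.nonempty_iInter_of_sequence_nonempty_isCompact_isClosed K
    (by
      intro R γ hγ
      rw [hmem] at hγ ⊢
      refine pos_mono 0 ?_ hγ
      intro n hn _ y hy
      exact hn y (hy.trans (by push_cast; linarith)))
    (by
      intro R
      obtain ⟨γ, hγ⟩ := h I hIG R
      exact ⟨γ, (hmem _ _).2 hγ⟩)
    (hcl 0).isCompact hcl
  exact ⟨γ, fun R => (hmem _ _).1 (Set.mem_iInter.1 hγ R)⟩

end Pool.Agent.Helper51.UD.HP
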